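import Mathlib

namespace Pool.Agent.H76.NET

open Filter Topology

/-- The edges of `H` with exactly one endpoint in `A`. -/
def edgeBoundary {V : Type*} (H : SimpleGraph V) (A : Set V) : Set (Sym2 V) :=
  {e | ∃ u v, u ∈ A ∧ v ∉ A ∧ H.Adj u v ∧ e = s(u, v)}

/-- The Cheeger (edge-isoperimetric) constant of `H`: the infimum of `|∂_E A| / |A|` over the
finite nonempty sets `A` of vertices. -/
noncomputable def cheeger {V : Type*} (H : SimpleGraph V) : ENNReal :=
  ⨅ (A : Finset V) (_ : A.Nonempty),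
    (((edgeBoundary H (A : Set V)).encard : ℕ∞) : ENNReal) / (A.card : ENNReal)

/-- `S` is a `k`-net of `G`: it is maximal under inclusion among the sets whose points are
pairwise at distance at least `k`. -/
def IsNet {V : Type*} (G : SimpleGraph V) (k : ℕ) (S : Set V) : Prop :=
  Maximal (fun T : Set V => ∀ x ∈ T, ∀ y ∈ T, x ≠ y → k ≤ G.dist x y) S

/-- The `k`-net graph: the vertex set is `S`, and `u ≠ v` are adjacent iff `d_G(u,v) ≤ 2k`. -/
def netGraph {V : Type*} (G : SimpleGraph V) (k : ℕ) (S : Set V) : SimpleGraph S where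
  Adj u v := u ≠ v ∧ G.dist (u : V) (v : V) ≤ 2 * k
  symm := ⟨fun u v h => ⟨h.1.symm, by rw [SimpleGraph.dist_comm]; exact h.2⟩⟩
  loopless := ⟨fun u h => h.1 rfl⟩

/-! ### Parents in a rooted tree -/

section par

variable {V : Type*} (T : SimpleGraph V) (o : V)

open Classical in
/-- The parent of `v` when the tree is rooted at `o`. -/
noncomputable def par (v : V) : V :=
  if h : ∃ w, T.Adj v w ∧ T.dist o w + 1 = T.dist o v then h.choose else v

variable {T o}

lemma exists_closer (hc : T.Connected) {v : V} (hv : v ≠ o) :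
    ∃ w, T.Adj v w ∧ T.dist o w + 1 = T.dist o v := by
  obtain ⟨p, hp⟩ := hc.exists_walk_length_eq_dist v o
  cases p with
  | nil => exact absurd rfl hv
  | cons h q =>
    rename_i w
    refine ⟨w, h, ?_⟩
    have h1 := SimpleGraph.dist_le q
    rw [SimpleGraph.Walk.length_cons] at hp
    rw [SimpleGraph.dist_comm (u := o) (v := w), SimpleGraph.dist_comm (u := o) (v := v)]
    have h2 := hc.dist_triangle (u := v) (v := w) (w := o)
    have h3 : T.dist v w = 1 := SimpleGraph.dist_eq_one_iff_adj.2 h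
    omega

lemma par_spec (hc : T.Connected) {v : V} (hv : v ≠ o) :
    T.Adj v (par T o v) ∧ T.dist o (par T o v) + 1 = T.dist o v := by
  have h := exists_closer hc hv
  rw [par, dif_pos h]
  exact h.choose_spec

lemma par_root : par T o o = o := by
  rw [par, dif_neg]
  rintro ⟨w, -, h⟩
  simp at h

lemma par_unique (hT : T.IsTree) {v w : V} (h1 : T.Adj v w) (h2 : T.dist o w + 1 = T.dist o v) :
    w = par T o v := by
  have hc := hT.connected
  have hv : v ≠ o := by rintro rfl; simp at h2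
  obtain ⟨h3, h4⟩ := par_spec hc hv
  -- both give paths from `o` to `v`
  have key : ∀ x, T.Adj v x → T.dist o x + 1 = T.dist o v →
      ∃ p : T.Walk o v, p.IsPath ∧ p.penultimate = x := by
    intro x hx hd
    obtain ⟨q, hq⟩ := hc.exists_walk_length_eq_dist o x
    refine ⟨q.concat hx.symm, ?_, ?_⟩
    · apply SimpleGraph.Walk.isPath_of_length_eq_dist
      rw [SimpleGraph.Walk.length_concat, hq, hd]
    · simp
  obtain ⟨p1, hp1, e1⟩ := key w h1 h2
  obtain ⟨p2, hp2, e2⟩ := key _ h3 h4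
  have : p1 = p2 := (hT.existsUnique_path o v).unique hp1 hp2
  rw [← e1, ← e2, this]

lemma adj_cases (hT : T.IsTree) {a b : V} (h : T.Adj a b) :
    (a = par T o b ∧ T.dist o b = T.dist o a + 1) ∨
      (b = par T o a ∧ T.dist o a = T.dist o b + 1) := by
  rcases hT.dist_eq_dist_add_one_of_adj o h with h1 | h1
  · exact Or.inr ⟨par_unique hT h h1.symm, h1⟩
  · exact Or.inl ⟨par_unique hT h.symm h1.symm, h1⟩

lemma dist_par (hc : T.Connected) (v : V) : T.dist o (par T o v) = T.dist o v - 1 := by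
  by_cases hv : v = o
  · subst hv; rw [par_root]; simp
  · have := (par_spec hc hv).2
    omega

lemma dist_iter (hc : T.Connected) (v : V) (i : ℕ) :
    T.dist o ((par T o)^[i] v) = T.dist o v - i := by
  induction i with
  | zero => simp
  | succ i ih => rw [Function.iterate_succ_apply', dist_par hc, ih]; omega

lemma dist_par_self (hc : T.Connected) (v : V) : T.dist (par T o v) v ≤ 1 := by
  by_cases hv : v = o
  · subst hv; rw [par_root]; simp
  · exact (SimpleGraph.dist_eq_one_iff_adj.2 (par_spec hc hv).1.symm).le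

lemma dist_iter_self (hc : T.Connected) (v : V) (i : ℕ) :
    T.dist ((par T o)^[i] v) v ≤ i := by
  induction i with
  | zero => simp
  | succ i ih =>
    rw [Function.iterate_succ_apply']
    have h1 := hc.dist_triangle (u := par T o ((par T o)^[i] v)) (v := (par T o)^[i] v) (w := v)
    have h2 := dist_par_self (T := T) (o := o) hc ((par T o)^[i] v)
    omega

lemma walk_meet (hT : T.IsTree) {w s : V} (p : T.Walk w s) :
    ∃ i j, i + j ≤ p.length ∧ (par T o)^[i] w = (par T o)^[j] s := by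
  induction p with
  | nil => exact ⟨0, 0, by simp, rfl⟩
  | cons h q ih =>
    rename_i u v x
    obtain ⟨i, j, hij, he⟩ := ih
    rw [SimpleGraph.Walk.length_cons]
    rcases adj_cases (o := o) hT h with ⟨h1, -⟩ | ⟨h1, -⟩
    · -- `u = par v`
      rcases i with _ | i
      · refine ⟨0, j + 1, by omega, ?_⟩
        rw [Function.iterate_succ_apply', ← he, Function.iterate_zero, id, id]
        exact h1
      · refine ⟨i, j, by omega, ?_⟩
        rw [← he, Function.iterate_succ_apply, h1]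
    · -- `v = par u`
      refine ⟨i + 1, j, by omega, ?_⟩
      rw [← he, Function.iterate_succ_apply, h1]

lemma meet (hT : T.IsTree) (w s : V) :
    ∃ i j, i + j ≤ T.dist w s ∧ (par T o)^[i] w = (par T o)^[j] s := by
  obtain ⟨p, hp⟩ := hT.connected.exists_walk_length_eq_dist w s
  rw [← hp]
  exact walk_meet hT p

/-- The children of `v`. -/
def kids (T : SimpleGraph V) (o v : V) : Set V := {c | T.Adj v c ∧ T.dist o c = T.dist o v + 1}

lemma kids_par (hT : T.IsTree) {v c : V} (h : c ∈ kids T o v) :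
    par T o c = v ∧ T.dist o c = T.dist o v + 1 :=
  ⟨(par_unique hT h.1.symm h.2.symm).symm, h.2⟩

lemma exists_kidset (hT : T.IsTree) {d : ℕ} (hreg : ∀ v, (d : ℕ∞) ≤ (T.neighborSet v).encard)
    (v : V) : ∃ K : Finset V, (K : Set V) ⊆ kids T o v ∧ K.card = d - 1 := by
  classical
  have hsub : T.neighborSet v ⊆ insert (par T o v) (kids T o v) := by
    intro c hc
    have hc' : T.Adj v c := hc
    rcases adj_cases (o := o) hT hc' with h | h
    · exact Or.inr ⟨hc', h.2⟩
    · exact Or.inl h.1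
  have h1 : (d : ℕ∞) ≤ (kids T o v).encard + 1 :=
    (hreg v).trans ((Set.encard_le_encard hsub).trans (Set.encard_insert_le _ _))
  have h2 : ((d - 1 : ℕ) : ℕ∞) ≤ (kids T o v).encard := by
    rcases Nat.eq_zero_or_pos d with h0 | h0
    · rw [h0]; simp
    · have h3 : ((d - 1 : ℕ) : ℕ∞) + 1 ≤ (kids T o v).encard + 1 := by
        refine le_trans (le_of_eq ?_) h1
        have : d - 1 + 1 = d := by omega
        exact_mod_cast this
      exact (ENat.add_le_add_iff_right (by simp)).1 h3
  obtain ⟨K, hK1, hK2⟩ := Set.exists_subset_encard_eq h2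
  have hfin : K.Finite := Set.finite_of_encard_eq_coe hK2
  refine ⟨hfin.toFinset, by simpa using hK1, ?_⟩
  have h4 := hfin.encard_eq_coe_toFinset_card
  rw [hK2] at h4
  exact_mod_cast h4.symm

/-- A set of `d - 1` children of `v`. -/
noncomputable def kidset (hT : T.IsTree) {d : ℕ}
    (hreg : ∀ v, (d : ℕ∞) ≤ (T.neighborSet v).encard) (o v : V) : Finset V :=
  (exists_kidset (o := o) hT hreg v).choose

lemma kidset_sub (hT : T.IsTree) {d : ℕ} (hreg : ∀ v, (d : ℕ∞) ≤ (T.neighborSet v).encard)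
    {v c : V} (h : c ∈ kidset hT hreg o v) : c ∈ kids T o v :=
  (exists_kidset (o := o) hT hreg v).choose_spec.1 h

lemma kids_card (hT : T.IsTree) {d : ℕ} (hreg : ∀ v, (d : ℕ∞) ≤ (T.neighborSet v).encard) (v : V) :
    d - 1 ≤ (kidset hT hreg o v).card :=
  (exists_kidset (o := o) hT hreg v).choose_spec.2.ge

/-- The descendants at depth `j` of the members of `A`. -/
noncomputable def gen (hT : T.IsTree) {d : ℕ} (hreg : ∀ v, (d : ℕ∞) ≤ (T.neighborSet v).encard) (o : V) (A : Finset V) :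
    ℕ → Finset V
  | 0 => A
  | j + 1 => open Classical in (gen hT hreg o A j).biUnion
      (fun v => kidset hT hreg o v)

lemma gen_spec (hT : T.IsTree) {d : ℕ} (hreg : ∀ v, (d : ℕ∞) ≤ (T.neighborSet v).encard) (A : Finset V)
    (j : ℕ) : ∀ u ∈ gen hT hreg o A j, (par T o)^[j] u ∈ A ∧
      T.dist o u = T.dist o ((par T o)^[j] u) + j := by
  classical
  induction j with
  | zero => intro u hu; exact ⟨hu, by simp⟩
  | succ j ih =>
    intro u hu
    rw [gen, Finset.mem_biUnion] at hu
    obtain ⟨v, hv, hu⟩ := hu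
    obtain ⟨h1, h2⟩ := kids_par hT (kidset_sub hT hreg hu)
    obtain ⟨h3, h4⟩ := ih v hv
    rw [Function.iterate_succ_apply, h1]
    exact ⟨h3, by omega⟩

lemma gen_card (hT : T.IsTree) {d : ℕ} (hreg : ∀ v, (d : ℕ∞) ≤ (T.neighborSet v).encard) (A : Finset V)
    (j : ℕ) : A.card * (d - 1) ^ j ≤ (gen hT hreg o A j).card := by
  classical
  induction j with
  | zero => simp [gen]
  | succ j ih =>
    rw [gen, Finset.card_biUnion]
    · calc A.card * (d - 1) ^ (j + 1) = (A.card * (d - 1) ^ j) * (d - 1) := by ring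
        _ ≤ (gen hT hreg o A j).card * (d - 1) := Nat.mul_le_mul_right _ ih
        _ = ∑ _v ∈ gen hT hreg o A j, (d - 1) := by rw [Finset.sum_const, smul_eq_mul]
        _ ≤ _ := Finset.sum_le_sum (fun v _ => kids_card hT hreg v)
    · intro v _ v' _ hne
      change Disjoint _ _
      rw [Finset.disjoint_left]
      intro c hc hc'
      exact hne ((kids_par hT (kidset_sub hT hreg hc)).1.symm.trans
        (kids_par hT (kidset_sub hT hreg hc')).1)

lemma exists_desc (hT : T.IsTree) {d : ℕ} (hd : 2 ≤ d)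
    (hreg : ∀ v, (d : ℕ∞) ≤ (T.neighborSet v).encard) (u : V) (j : ℕ) :
    ∃ w, (par T o)^[j] w = u ∧ T.dist o w = T.dist o u + j := by
  classical
  have h1 := gen_card (o := o) hT hreg {u} j
  have h2 : 0 < (gen hT hreg o {u} j).card := by
    refine lt_of_lt_of_le ?_ h1
    have : 0 < (d - 1) ^ j := Nat.pow_pos (by omega)
    simpa using this
  obtain ⟨w, hw⟩ := Finset.card_pos.1 h2
  obtain ⟨h3, h4⟩ := gen_spec hT hreg {u} j w hw
  rw [Finset.mem_singleton] at h3
  exact ⟨w, h3, by rw [h3] at h4; exact h4⟩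

end par

/-! ### The main estimate -/

lemma net_cover {V : Type*} {T : SimpleGraph V} {k : ℕ} (hk : 1 ≤ k) {S : Set V}
    (hS : IsNet T k S) (w : V) : ∃ s ∈ S, T.dist w s < k := by
  by_contra hcon
  push Not at hcon
  have hw : w ∉ S := by
    intro hw
    have := hcon w hw
    simp at this
    omega
  have h1 : (fun T' : Set V => ∀ x ∈ T', ∀ y ∈ T', x ≠ y → k ≤ T.dist x y) (insert w S) := by
    rintro x (rfl | hx) y (rfl | hy) hne
    · exact absurd rfl hne
    · exact hcon y hy
    · rw [SimpleGraph.dist_comm]; exact hcon x hx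
    · exact hS.1 x hx y hy hne
  exact hw (hS.2 h1 (Set.subset_insert _ _) (Set.mem_insert _ _))

/-- `s` is a descendant of `u` (or equal to it). -/
def Desc {V : Type*} (T : SimpleGraph V) (o u s : V) : Prop :=
  ∃ n, (par T o)^[n] s = u ∧ T.dist o s = T.dist o u + n

section main

variable {V : Type*} {T : SimpleGraph V} {o : V} {d k : ℕ} {S : Set V}

/-- Occupied branches are few. -/
lemma occupied (hT : T.IsTree) (hS : IsNet T k S) (A : Finset V)
    (hA : (A : Set V) ⊆ S) {r : ℕ} (hr : r + 1 ≤ k) (U : Finset V)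
    (hU : ∀ u ∈ U, (par T o)^[r + 1] u ∈ A ∧
      T.dist o u = T.dist o ((par T o)^[r + 1] u) + (r + 1) ∧ ∃ a ∈ A, Desc T o u a) :
    U.card ≤ A.card := by
  classical
  have key : ∀ u ∈ U, ∃ a ∈ A, Desc T o u a ∧ ∀ b ∈ A, Desc T o u b → T.dist o a ≤ T.dist o b := by
    intro u hu
    obtain ⟨-, -, a, ha, hd⟩ := hU u hu
    have hne : (A.filter (fun a => Desc T o u a)).Nonempty := ⟨a, by simp [ha, hd]⟩
    obtain ⟨b, hb, hmin⟩ := Finset.exists_min_image _ (fun a => T.dist o a) hne
    rw [Finset.mem_filter] at hb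
    exact ⟨b, hb.1, hb.2, fun c hc hc' => hmin c (by simp [hc, hc'])⟩
  choose! f hf1 hf2 hf3 using key
  refine Finset.card_le_card_of_injOn f hf1 ?_
  have aux : ∀ u₁ ∈ U, ∀ u₂ ∈ U, f u₁ = f u₂ → T.dist o u₁ ≤ T.dist o u₂ → u₁ = u₂ := by
    intro u₁ h₁ u₂ h₂ he hle
    obtain ⟨n₁, e₁, d₁⟩ := hf2 u₁ h₁
    obtain ⟨n₂, e₂, d₂⟩ := hf2 u₂ h₂
    rw [← he] at e₂ d₂
    obtain ⟨ha₁, hb₁, -⟩ := hU u₁ h₁
    obtain ⟨ha₂, hb₂, -⟩ := hU u₂ h₂
    set a₁ := (par T o)^[r + 1] u₁ with ha₁'
    set a₂ := (par T o)^[r + 1] u₂ with ha₂'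
    have hn : n₂ ≤ n₁ := by omega
    obtain ⟨m, rfl⟩ := Nat.exists_eq_add_of_le hn
    have hu : (par T o)^[m] u₂ = u₁ := by
      rw [← e₂, ← Function.iterate_add_apply, add_comm]
      exact e₁
    rcases Nat.eq_zero_or_pos m with rfl | hm
    · exact hu.symm
    exfalso
    have haa : (par T o)^[m] a₂ = a₁ := by
      rw [ha₁', ha₂', ← hu, ← Function.iterate_add_apply, ← Function.iterate_add_apply, add_comm]
    have hdist : T.dist a₁ a₂ ≤ m := by
      rw [← haa]; exact dist_iter_self hT.connected a₂ m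
    have hh : T.dist o a₂ = T.dist o a₁ + m := by omega
    have hne : a₁ ≠ a₂ := by
      intro h
      rw [h] at hh
      omega
    have hkm : k ≤ m := (hS.1 _ (hA ha₁) _ (hA ha₂) hne).trans hdist
    obtain ⟨l, rfl⟩ := Nat.exists_eq_add_of_le (hr.trans hkm)
    have hdesc : Desc T o u₁ a₂ := by
      refine ⟨l, ?_, by omega⟩
      rw [ha₂', ← Function.iterate_add_apply, ← hu, add_comm]
    have := hf3 u₁ h₁ a₂ ha₂ hdesc
    omega
  intro u₁ h₁ u₂ h₂ he
  rcases le_total (T.dist o u₁) (T.dist o u₂) with h | h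
  · exact aux u₁ h₁ u₂ h₂ he h
  · exact (aux u₂ h₂ u₁ h₁ he.symm h).symm

/-- In every branch hanging from a net point there is a net point at distance at most `2k`. -/
lemma branch (hT : T.IsTree) (hd : 2 ≤ d) (hreg : ∀ v, (d : ℕ∞) ≤ (T.neighborSet v).encard)
    (hk : 1 ≤ k) (hS : IsNet T k S) {r : ℕ} (hr : r + 1 ≤ k) (hr2 : 2 * r ≤ k + 1) {a u : V}
    (ha : a ∈ S) (hu : (par T o)^[r + 1] u = a) (hu2 : T.dist o u = T.dist o a + (r + 1)) :
    ∃ s ∈ S, Desc T o u s ∧ T.dist a s ≤ 2 * k := by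
  have hc := hT.connected
  obtain ⟨q, hq⟩ : ∃ q, k + 1 = r + 1 + q := ⟨k - r, by omega⟩
  obtain ⟨w, hw, hw2⟩ := exists_desc (o := o) hT hd hreg u q
  obtain ⟨s, hs, hws⟩ := net_cover hk hS w
  have haw : (par T o)^[k + 1] w = a := by
    rw [hq, Function.iterate_add_apply, hw, hu]
  have hwh : T.dist o w = T.dist o a + (k + 1) := by omega
  have hdaw : T.dist a w ≤ k + 1 := by rw [← haw]; exact dist_iter_self hc w (k + 1)
  have hdaw2 : k + 1 ≤ T.dist a w := by
    have := hc.dist_triangle (u := o) (v := a) (w := w)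
    omega
  obtain ⟨i, j, hij, he⟩ := meet (o := o) hT w s
  have hh := congrArg (T.dist o) he
  rw [dist_iter hc, dist_iter hc] at hh
  have hik : i < k := by omega
  have hsh : T.dist o s = T.dist o w - i + j := by omega
  refine ⟨s, hs, ?_, ?_⟩
  · by_cases hiq : i ≤ q
    · obtain ⟨m, hm⟩ := Nat.exists_eq_add_of_le hiq
      refine ⟨m + j, ?_, by omega⟩
      rw [Function.iterate_add_apply, ← he, ← Function.iterate_add_apply, ← hw]
      congr 1
      omega
    · exfalso
      push Not at hiq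
      have h1 : (par T o)^[k + 1 - i + j] s = a := by
        rw [Function.iterate_add_apply, ← he, ← Function.iterate_add_apply, ← haw]
        congr 1
        omega
      have h2 : T.dist a s ≤ k + 1 - i + j := by
        rw [← h1]; exact dist_iter_self hc s _
      have h3 : a = s := by
        by_contra hne
        have := hS.1 a ha s hs hne
        omega
      rw [← h3, SimpleGraph.dist_comm] at hws
      omega
  · have := hc.dist_triangle (u := a) (v := w) (w := s)
    omega

/-- The exponent of the bound, minus one: `⌊(k + 1) / 2⌋` for `k ≥ 2`, and `0` for `k = 1`. -/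
def ex (k : ℕ) : ℕ := min ((k + 1) / 2) (k - 1)

lemma main_bound (hT : T.IsTree) (hd : 3 ≤ d) (hreg : ∀ v, (d : ℕ∞) ≤ (T.neighborSet v).encard)
    (hk : 1 ≤ k) (hS : IsNet T k S) (A : Finset S) :
    (((d - 1) ^ (ex k + 1) - 1) * A.card : ℕ) ≤
      (edgeBoundary (netGraph T k S) (A : Set S)).encard := by
  classical
  rcases A.eq_empty_or_nonempty with rfl | ⟨x₀, -⟩
  · simp
  have : Nonempty (S × S) := ⟨(x₀, x₀)⟩
  obtain ⟨o⟩ := hT.connected.nonempty
  set r := ex k with hr
  have hr1 : r + 1 ≤ k := by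
    rw [hr]; unfold ex; omega
  have hr2 : 2 * r ≤ k + 1 := by
    rw [hr]; unfold ex; omega
  set A' : Finset V := A.map ⟨Subtype.val, Subtype.val_injective⟩ with hA'
  have hA'S : (A' : Set V) ⊆ S := by
    intro x hx
    simp only [hA', Finset.coe_map, Function.Embedding.coeFn_mk, Set.mem_image] at hx
    obtain ⟨y, -, rfl⟩ := hx
    exact y.2
  have hcardA : A'.card = A.card := Finset.card_map _
  set G := gen hT hreg o A' (r + 1) with hG
  have hGc := gen_card (o := o) hT hreg A' (r + 1)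
  have hGs := gen_spec (o := o) hT hreg A' (r + 1)
  set Uo := G.filter (fun u => ∃ a ∈ A', Desc T o u a) with hUo
  set Uf := G.filter (fun u => ¬ ∃ a ∈ A', Desc T o u a) with hUf
  have hsum : Uo.card + Uf.card = G.card := Finset.card_filter_add_card_filter_not _
  have hocc : Uo.card ≤ A'.card := by
    refine occupied (o := o) hT hS A' hA'S hr1 Uo ?_
    intro u hu
    rw [hUo, Finset.mem_filter] at hu
    obtain ⟨h1, h2⟩ := hGs u hu.1
    exact ⟨h1, h2, hu.2⟩
  have hfree : ((d - 1) ^ (r + 1) - 1) * A.card ≤ Uf.card := by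
    rw [hcardA] at hocc
    rw [hcardA, ← hG] at hGc
    have h1 : ((d - 1) ^ (r + 1) - 1) * A.card = A.card * (d - 1) ^ (r + 1) - A.card := by
      rw [Nat.sub_mul, one_mul, mul_comm]
    omega
  have key : ∀ u ∈ Uf, ∃ p : S × S, p.1 ∈ A ∧ (p.1 : V) = (par T o)^[r + 1] u ∧
      T.dist o u = T.dist o (p.1 : V) + (r + 1) ∧ Desc T o u p.2 ∧
      T.dist (p.1 : V) (p.2 : V) ≤ 2 * k ∧ p.2 ∉ A := by
    intro u hu
    rw [hUf, Finset.mem_filter] at hu
    obtain ⟨h1, h2⟩ := hGs u hu.1
    obtain ⟨s, hs, hdesc, hdist⟩ := branch (o := o) hT (by omega) hreg hk hS hr1 hr2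
      (hA'S h1) rfl h2
    refine ⟨(⟨_, hA'S h1⟩, ⟨s, hs⟩), ?_, rfl, h2, hdesc, hdist, ?_⟩
    · have h3 := h1
      rw [hA', Finset.mem_map] at h3
      obtain ⟨y, hy, hy2⟩ := h3
      have : y = ⟨_, hA'S h1⟩ := Subtype.ext hy2
      exact this ▸ hy
    · intro hmem
      apply hu.2
      refine ⟨s, ?_, hdesc⟩
      rw [hA', Finset.mem_map]
      exact ⟨_, hmem, rfl⟩
  choose! f hf1 hf2 hf3 hf4 hf5 hf6 using key
  have hmaps : ∀ u ∈ (Uf : Set V), s((f u).1, (f u).2) ∈
      edgeBoundary (netGraph T k S) (A : Set S) := by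
    intro u hu
    refine ⟨(f u).1, (f u).2, hf1 u hu, hf6 u hu, ⟨?_, hf5 u hu⟩, rfl⟩
    intro h
    exact hf6 u hu (h ▸ hf1 u hu)
  have hinj : Set.InjOn (fun u => s((f u).1, (f u).2)) (Uf : Set V) := by
    intro u hu u' hu' he
    simp only at he
    rw [Sym2.eq_iff] at he
    rcases he with ⟨e1, e2⟩ | ⟨e1, e2⟩
    · obtain ⟨n, hn1, hn2⟩ := hf4 u hu
      obtain ⟨n', hn1', hn2'⟩ := hf4 u' hu'
      have h3 := hf3 u hu
      have h3' := hf3 u' hu'
      rw [← e1] at h3'
      rw [← e2] at hn1' hn2'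
      have : n = n' := by omega
      rw [← hn1, ← hn1', this]
    · exact absurd (e1 ▸ hf1 u hu) (hf6 u' hu')
  have h1 := Set.encard_le_encard_of_injOn hmaps hinj
  rw [Set.encard_coe_eq_coe_finsetCard] at h1
  refine le_trans ?_ h1
  exact_mod_cast hfree

end main

/-- The quantitative bound for the Cheeger constant of a net graph of the `d`-regular tree. -/
lemma cheeger_bound {V : Type*} {T : SimpleGraph V} {d k : ℕ} {S : Set V} (hT : T.IsTree)
    (hd : 3 ≤ d) (hreg : ∀ v, (d : ℕ∞) ≤ (T.neighborSet v).encard) (hk : 1 ≤ k) (hS : IsNet T k S) :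
    (((d - 1) ^ (ex k + 1) - 1 : ℕ) : ENNReal) ≤ cheeger (netGraph T k S) := by
  rw [cheeger]
  refine le_iInf₂ (fun A hA => ?_)
  rw [ENNReal.le_div_iff_mul_le]
  · have h1 := main_bound hT hd hreg hk hS A
    have h2 : ((((d - 1) ^ (ex k + 1) - 1) * A.card : ℕ) : ENNReal) ≤
        (((edgeBoundary (netGraph T k S) (A : Set S)).encard : ℕ∞) : ENNReal) := by
      have := ENat.toENNReal_le.2 h1
      simpa using this
    rw [Nat.cast_mul] at h2
    exact h2
  · left
    exact_mod_cast hA.card_pos.ne'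
  · left
    exact ENNReal.natCast_ne_top _

end Pool.Agent.H76.NET
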