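import Pool.Agent.H76.NET.A

namespace Pool.Agent.H76.NET

section con

variable {V : Type*} {T : SimpleGraph V} {o : V} {d k : ℕ}

/-- Every vertex has a child (the tree is rooted at `o`). -/
def NoLeaf (T : SimpleGraph V) (o : V) : Prop :=
  ∀ v, ∃ c, par T o c = v ∧ T.dist o c = T.dist o v + 1

lemma noLeaf (hT : T.IsTree) (hd : 2 ≤ d) (hreg : ∀ v, (d : ℕ∞) ≤ (T.neighborSet v).encard) :
    NoLeaf T o := by
  intro v
  obtain ⟨w, h1, h2⟩ := exists_desc (o := o) hT hd hreg v 1
  exact ⟨w, by simpa using h1, h2⟩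

open Classical in
/-- A chosen child of `v`. -/
noncomputable def lc (T : SimpleGraph V) (o v : V) : V :=
  if h : ∃ c, par T o c = v ∧ T.dist o c = T.dist o v + 1 then h.choose else v

lemma lc_spec (h : NoLeaf T o) (v : V) :
    par T o (lc T o v) = v ∧ T.dist o (lc T o v) = T.dist o v + 1 := by
  rw [lc, dif_pos (h v)]
  exact (h v).choose_spec

lemma lc_depth (h : NoLeaf T o) (v : V) (i : ℕ) :
    T.dist o ((lc T o)^[i] v) = T.dist o v + i := by
  induction i with
  | zero => simp
  | succ i ih => rw [Function.iterate_succ_apply', (lc_spec h _).2, ih]; omega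

lemma par_lc (h : NoLeaf T o) (v : V) (i : ℕ) : (par T o)^[i] ((lc T o)^[i] v) = v := by
  induction i with
  | zero => simp
  | succ i ih =>
    rw [Function.iterate_succ_apply, Function.iterate_succ_apply', (lc_spec h _).1, ih]

lemma par_lc_add (h : NoLeaf T o) (v : V) (i j : ℕ) :
    (par T o)^[i] ((lc T o)^[i + j] v) = (lc T o)^[j] v := by
  rw [Function.iterate_add_apply, par_lc h]

lemma lc_dist (hc : T.Connected) (h : NoLeaf T o) (v : V) (i : ℕ) :
    T.dist v ((lc T o)^[i] v) ≤ i := by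
  have := dist_iter_self (o := o) hc ((lc T o)^[i] v) i
  rwa [par_lc h] at this

/-- The depth of the branches that get one net point each. -/
def cc (k : ℕ) : ℕ := (k + 1) / 2 + 1

/-- The root and one point at depth `2 (cc k) - 2` in every branch. -/
def S1 (T : SimpleGraph V) (o : V) (k : ℕ) : Set V :=
  {s | s = o ∨ ∃ y, T.dist o y = cc k ∧ s = (lc T o)^[cc k - 2] y}

/-- The vertices at depth at most `2k` which are far from `S1`. -/
def Unc (T : SimpleGraph V) (o : V) (k : ℕ) : Set V :=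
  {v | T.dist o v ≤ 2 * k ∧ ∀ s ∈ S1 T o k, k ≤ T.dist v s}

/-- Starting points of the chosen lines in `Unc`. -/
def Sta (T : SimpleGraph V) (o : V) (k : ℕ) : Set V :=
  {w | w ∈ Unc T o k ∧ ¬ (par T o w ∈ Unc T o k ∧ w = lc T o (par T o w))}

/-- The far net points. -/
def S2 (T : SimpleGraph V) (o : V) (k : ℕ) : Set V :=
  {s | ∃ w ∈ Sta T o k, s = (lc T o)^[k - 1] w}

lemma S1_depth (h : NoLeaf T o) (hk : 2 ≤ k) {s : V} (hs : s ∈ S1 T o k) :
    T.dist o s ≤ k + 1 := by
  rcases hs with rfl | ⟨y, hy, rfl⟩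
  · simp
  · rw [lc_depth h, hy]
    unfold cc
    omega

lemma low (hc : T.Connected) (h : NoLeaf T o) (hk : 2 ≤ k) {v : V} (hv : T.dist o v ≤ k + 1) :
    ∃ s ∈ S1 T o k, T.dist v s < k := by
  by_cases h1 : T.dist o v < k
  · exact ⟨o, Or.inl rfl, by rwa [SimpleGraph.dist_comm]⟩
  · have hcc : cc k ≤ k := by unfold cc; omega
    set y := (par T o)^[T.dist o v - cc k] v with hy
    have hyd : T.dist o y = cc k := by
      rw [hy, dist_iter hc]
      omega
    refine ⟨(lc T o)^[cc k - 2] y, Or.inr ⟨y, hyd, rfl⟩, ?_⟩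
    have h2 : T.dist y v ≤ T.dist o v - cc k := dist_iter_self hc v _
    have h3 := lc_dist hc h y (cc k - 2)
    have h4 := hc.dist_triangle (u := v) (v := y) (w := (lc T o)^[cc k - 2] y)
    rw [SimpleGraph.dist_comm (u := v) (v := y)] at h4
    have h5 : 2 ≤ cc k := by unfold cc; omega
    omega

lemma unc_depth (hc : T.Connected) (h : NoLeaf T o) (hk : 2 ≤ k) {v : V} (hv : v ∈ Unc T o k) :
    k + 2 ≤ T.dist o v := by
  by_contra hcon
  obtain ⟨s, hs, h1⟩ := low hc h hk (v := v) (by omega)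
  have := hv.2 s hs
  omega

lemma unc_child (hT : T.IsTree) (h : NoLeaf T o) (hk : 2 ≤ k) {v : V} (hv : v ∈ Unc T o k)
    (h2 : T.dist o v + 1 ≤ 2 * k) : lc T o v ∈ Unc T o k := by
  have hc := hT.connected
  obtain ⟨hp, hd⟩ := lc_spec h v
  refine ⟨by omega, fun s hs => ?_⟩
  by_contra hcon
  push Not at hcon
  have hvd := unc_depth hc h hk hv
  obtain ⟨i, j, hij, he⟩ := meet (o := o) hT (lc T o v) s
  rcases i with _ | i
  · have h3 := congrArg (T.dist o) he
    rw [Function.iterate_zero, id, dist_iter hc] at h3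
    have h4 := S1_depth h hk hs
    omega
  · rw [Function.iterate_succ_apply, hp] at he
    have h5 := hc.dist_triangle (u := v) (v := (par T o)^[i] v) (w := s)
    have h6 := dist_iter_self (o := o) hc v i
    have h7 := dist_iter_self (o := o) hc s j
    rw [he] at h5 h6
    rw [SimpleGraph.dist_comm (u := v)] at h5
    have := hv.2 s hs
    have h8 : T.dist v s ≤ i + j := by
      rw [SimpleGraph.dist_comm] at h6 ⊢
      rw [SimpleGraph.dist_comm] at h5
      have := hc.dist_triangle (u := v) (v := (par T o)^[j] s) (w := s)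
      rw [SimpleGraph.dist_comm]
      omega
    omega

lemma unc_desc (hT : T.IsTree) (h : NoLeaf T o) (hk : 2 ≤ k) {w : V} (hw : w ∈ Unc T o k) (j : ℕ)
    (h2 : T.dist o w + j ≤ 2 * k) : (lc T o)^[j] w ∈ Unc T o k := by
  induction j with
  | zero => exact hw
  | succ j ih =>
    rw [Function.iterate_succ_apply']
    refine unc_child hT h hk (ih (by omega)) ?_
    rw [lc_depth h]
    omega

lemma chain_start (hc : T.Connected) (h : NoLeaf T o) (hk : 2 ≤ k) (n : ℕ) :
    ∀ v ∈ Unc T o k, T.dist o v = n → ∃ j, ∃ w ∈ Sta T o k, v = (lc T o)^[j] w := by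
  induction n with
  | zero =>
    intro v hv h0
    have := unc_depth hc h hk hv
    omega
  | succ n ih =>
    intro v hv hn
    by_cases hs : par T o v ∈ Unc T o k ∧ v = lc T o (par T o v)
    · obtain ⟨j, w, hw, he⟩ := ih _ hs.1 (by rw [dist_par hc]; omega)
      refine ⟨j + 1, w, hw, ?_⟩
      rw [Function.iterate_succ_apply', ← he]
      exact hs.2
    · exact ⟨0, v, ⟨hv, hs⟩, rfl⟩

lemma cover (hT : T.IsTree) (h : NoLeaf T o) (hk : 2 ≤ k) {v : V} (hv : T.dist o v ≤ 2 * k) :
    ∃ t ∈ S1 T o k ∪ S2 T o k, T.dist v t < k := by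
  have hc := hT.connected
  by_cases hu : v ∈ Unc T o k
  · obtain ⟨j, w, hw, rfl⟩ := chain_start hc h hk _ v hu rfl
    have h1 := unc_depth hc h hk hw.1
    rw [lc_depth h] at hv
    obtain ⟨m, hm⟩ : ∃ m, k - 1 = m + j := ⟨k - 1 - j, by omega⟩
    refine ⟨(lc T o)^[k - 1] w, Or.inr ⟨w, hw, rfl⟩, ?_⟩
    have h2 := lc_dist hc h ((lc T o)^[j] w) m
    rw [← Function.iterate_add_apply, ← hm] at h2
    omega
  · simp only [Unc, Set.mem_ofPred_eq, not_and, not_forall, not_le] at hu
    obtain ⟨s, hs, h1⟩ := hu hv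
    exact ⟨s, Or.inl hs, h1⟩

lemma S2_depth (hc : T.Connected) (h : NoLeaf T o) (hk : 2 ≤ k) {s : V} (hs : s ∈ S2 T o k) :
    2 * k + 1 ≤ T.dist o s := by
  obtain ⟨w, hw, rfl⟩ := hs
  have := unc_depth hc h hk hw.1
  rw [lc_depth h]
  omega

lemma sep11 (hT : T.IsTree) (h : NoLeaf T o) (hk : 2 ≤ k) {x y : V} (hx : x ∈ S1 T o k)
    (hy : y ∈ S1 T o k) (hne : x ≠ y) : k ≤ T.dist x y := by
  have hc := hT.connected
  have hcc : 2 ≤ cc k := by unfold cc; omega
  have hcc2 : k ≤ 2 * cc k - 2 := by unfold cc; omega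
  rcases hx with rfl | ⟨a, ha, rfl⟩
  · rcases hy with rfl | ⟨b, hb, rfl⟩
    · exact absurd rfl hne
    · rw [lc_depth h]
      omega
  · rcases hy with rfl | ⟨b, hb, rfl⟩
    · rw [SimpleGraph.dist_comm, lc_depth h]
      omega
    · have hab : a ≠ b := by rintro rfl; exact hne rfl
      obtain ⟨i, j, hij, he⟩ := meet (o := o) hT ((lc T o)^[cc k - 2] a) ((lc T o)^[cc k - 2] b)
      have h3 := congrArg (T.dist o) he
      rw [dist_iter hc, dist_iter hc, lc_depth h, lc_depth h, ha, hb] at h3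
      by_contra hcon
      have h4 : i = j := by omega
      subst h4
      have h5 : i ≤ cc k - 2 := by omega
      obtain ⟨m, hm⟩ : ∃ m, cc k - 2 = i + m := ⟨cc k - 2 - i, by omega⟩
      rw [hm, par_lc_add h, par_lc_add h] at he
      have h6 := congrArg ((par T o)^[m]) he
      rw [par_lc h, par_lc h] at h6
      exact hab h6

lemma sep12 (hc : T.Connected) (h : NoLeaf T o) (hk : 2 ≤ k) {x y : V} (hx : x ∈ S1 T o k)
    (hy : y ∈ S2 T o k) : k ≤ T.dist x y := by
  have h1 := S1_depth h hk hx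
  have h2 := S2_depth hc h hk hy
  have h3 := hc.dist_triangle (u := o) (v := x) (w := y)
  omega

lemma sta_unique (hT : T.IsTree) (h : NoLeaf T o) (hk : 2 ≤ k) {w w' : V} (hw : w ∈ Sta T o k)
    (hw' : w' ∈ Sta T o k) {m m' : ℕ} (hm : m ≤ m')
    (he : (lc T o)^[m] w = (lc T o)^[m'] w') : w = w' := by
  obtain ⟨n, rfl⟩ := Nat.exists_eq_add_of_le hm
  have h1 := congrArg ((par T o)^[m]) he
  rw [par_lc h, par_lc_add h] at h1
  rcases n with _ | n
  · exact h1
  · exfalso
    apply hw.2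
    have h2 : par T o w = (lc T o)^[n] w' := by
      rw [h1, Function.iterate_succ_apply', (lc_spec h _).1]
    have h3 : T.dist o w ≤ 2 * k := hw.1.1
    rw [h1, lc_depth h] at h3
    refine ⟨?_, ?_⟩
    · rw [h2]
      exact unc_desc hT h hk hw'.1 n (by omega)
    · rw [h2, ← Function.iterate_succ_apply' (lc T o)]
      exact h1

lemma sep22 (hT : T.IsTree) (h : NoLeaf T o) (hk : 2 ≤ k) {x y : V} (hx : x ∈ S2 T o k)
    (hy : y ∈ S2 T o k) (hne : x ≠ y) : k ≤ T.dist x y := by
  obtain ⟨w, hw, rfl⟩ := hx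
  obtain ⟨w', hw', rfl⟩ := hy
  by_contra hcon
  push Not at hcon
  obtain ⟨i, j, hij, he⟩ := meet (o := o) hT ((lc T o)^[k - 1] w) ((lc T o)^[k - 1] w')
  obtain ⟨m, hm⟩ : ∃ m, k - 1 = i + m := ⟨k - 1 - i, by omega⟩
  obtain ⟨m', hm'⟩ : ∃ m', k - 1 = j + m' := ⟨k - 1 - j, by omega⟩
  have e1 : (par T o)^[i] ((lc T o)^[k - 1] w) = (lc T o)^[m] w := by rw [hm, par_lc_add h]
  have e2 : (par T o)^[j] ((lc T o)^[k - 1] w') = (lc T o)^[m'] w' := by rw [hm', par_lc_add h]
  rw [e1, e2] at he
  apply hne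
  have : w = w' := by
    rcases le_total m m' with hmm | hmm
    · exact sta_unique hT h hk hw hw' hmm he
    · exact (sta_unique hT h hk hw' hw hmm he.symm).symm
  rw [this]

lemma sep (hT : T.IsTree) (h : NoLeaf T o) (hk : 2 ≤ k) : ∀ x ∈ S1 T o k ∪ S2 T o k,
    ∀ y ∈ S1 T o k ∪ S2 T o k, x ≠ y → k ≤ T.dist x y := by
  rintro x (hx | hx) y (hy | hy) hne
  · exact sep11 hT h hk hx hy hne
  · exact sep12 hT.connected h hk hx hy
  · rw [SimpleGraph.dist_comm]; exact sep12 hT.connected h hk hy hx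
  · exact sep22 hT h hk hx hy hne

lemma exists_maximal (k : ℕ) (S0 : Set V)
    (h0 : ∀ x ∈ S0, ∀ y ∈ S0, x ≠ y → k ≤ T.dist x y) :
    ∃ S, S0 ⊆ S ∧ IsNet T k S := by
  refine zorn_subset_nonempty {S : Set V | ∀ x ∈ S, ∀ y ∈ S, x ≠ y → k ≤ T.dist x y} ?_ S0 h0
  intro c hc hch _
  refine ⟨⋃₀ c, ?_, fun s hs => Set.subset_sUnion_of_mem hs⟩
  rintro x ⟨s, hs, hxs⟩ y ⟨t, ht, hyt⟩ hne
  rcases hch.total hs ht with hst | hst
  · exact hc ht x (hst hxs) y hyt hne
  · exact hc hs x hxs y (hst hyt) hne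

/-- **A net with a vertex of small degree.** -/
theorem exists_net (hT : T.IsTree) (h : NoLeaf T o) (hk : 2 ≤ k) :
    ∃ S, IsNet T k S ∧ ∃ ho : o ∈ S,
      ((netGraph T k S).neighborSet ⟨o, ho⟩).encard = {y | T.dist o y = cc k}.encard := by
  have hc := hT.connected
  obtain ⟨S, hS0, hS⟩ := exists_maximal (T := T) k _ (sep hT h hk)
  have ho : o ∈ S := hS0 (Or.inl (Or.inl rfl))
  refine ⟨S, hS, ho, ?_⟩
  have hcc : 2 ≤ cc k := by unfold cc; omega
  have hcc2 : 2 * cc k - 2 ≤ 2 * k := by unfold cc; omega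
  have hin : ∀ y : {y | T.dist o y = cc k}, (lc T o)^[cc k - 2] (y : V) ∈ S := fun y =>
    hS0 (Or.inl (Or.inr ⟨y, y.2, rfl⟩))
  have himg : (netGraph T k S).neighborSet ⟨o, ho⟩ =
      Set.range (fun y : {y | T.dist o y = cc k} =>
        (⟨(lc T o)^[cc k - 2] (y : V), hin y⟩ : S)) := by
    ext s
    rw [SimpleGraph.mem_neighborSet, Set.mem_range]
    constructor
    · rintro ⟨hne, hle⟩
      obtain ⟨t, ht, hst⟩ := cover hT h hk (v := (s : V)) hle
      have hse : (s : V) = t := by
        by_contra hcon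
        have := hS.1 s s.2 t (hS0 ht) hcon
        omega
      rcases ht with ht | ht
      · rcases ht with rfl | ⟨y, hy, rfl⟩
        · exact absurd (Subtype.ext hse.symm) hne
        · exact ⟨⟨y, hy⟩, Subtype.ext hse.symm⟩
      · have := S2_depth hc h hk ht
        rw [← hse] at this
        have hle' : T.dist o (s : V) ≤ 2 * k := hle
        omega
    · rintro ⟨y, rfl⟩
      have hy : T.dist o (y : V) = cc k := y.2
      have hd : T.dist o ((lc T o)^[cc k - 2] (y : V)) = 2 * cc k - 2 := by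
        rw [lc_depth h]; omega
      refine ⟨?_, ?_⟩
      · intro he
        have he' : o = (lc T o)^[cc k - 2] (y : V) := congrArg Subtype.val he
        rw [← he'] at hd
        simp at hd
        omega
      · change T.dist o ((lc T o)^[cc k - 2] (y : V)) ≤ 2 * k
        omega
  have hinj : Function.Injective (fun y : {y | T.dist o y = cc k} =>
        (⟨(lc T o)^[cc k - 2] (y : V), hin y⟩ : S)) := by
    intro y y' he
    have he' := congrArg (fun s : S => (par T o)^[cc k - 2] (s : V)) he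
    simp only [par_lc h] at he'
    exact Subtype.ext he'
  rw [himg, ← Set.image_univ, hinj.encard_image, Set.encard_univ]
  rfl

/-- **The degree of a vertex of a net graph is at least the size of a sphere.** -/
theorem degree_ge (hT : T.IsTree) (hd : 2 ≤ d)
    (hreg : ∀ v, (d : ℕ∞) ≤ (T.neighborSet v).encard) (hk : 2 ≤ k) {S : Set V}
    (hS : IsNet T k S) (ho : o ∈ S) :
    {y | T.dist o y = cc k}.encard ≤ ((netGraph T k S).neighborSet ⟨o, ho⟩).encard := by
  have hc := hT.connected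
  have key : ∀ y ∈ {y | T.dist o y = cc k}, ∃ s : S, Desc T o y s ∧
      T.dist o (s : V) ≤ 2 * k := by
    intro y hy
    have hy' : T.dist o y = cc k := hy
    have h1 : (par T o)^[(k + 1) / 2 + 1] y = o := by
      have h2 := dist_iter (o := o) hc y ((k + 1) / 2 + 1)
      rw [hy', cc, Nat.sub_self] at h2
      exact (hc.dist_eq_zero_iff.1 h2).symm
    obtain ⟨s, hs, h3, h4⟩ := branch (o := o) (r := (k + 1) / 2) hT hd hreg (by omega) hS
      (by omega) (by omega) ho h1 (by rw [hy']; simp [cc])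
    exact ⟨⟨s, hs⟩, h3, h4⟩
  have : Nonempty S := ⟨⟨o, ho⟩⟩
  choose! f hf1 hf2 using key
  refine Set.encard_le_encard_of_injOn (f := f) ?_ ?_
  · intro y hy
    refine ⟨?_, hf2 y hy⟩
    intro he
    obtain ⟨n, -, h2⟩ := hf1 y hy
    rw [← he] at h2
    have hy' : T.dist o y = cc k := hy
    simp only [SimpleGraph.dist_self] at h2
    unfold cc at hy'
    omega
  · intro y hy y' hy' he
    obtain ⟨n, h1, h2⟩ := hf1 y hy
    obtain ⟨n', h1', h2'⟩ := hf1 y' hy'
    rw [← he] at h1' h2'
    have h3 : T.dist o y = cc k := hy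
    have h3' : T.dist o y' = cc k := hy'
    have : n = n' := by omega
    rw [← h1, ← h1', this]

lemma cheeger_le_degree {W : Type*} (H : SimpleGraph W) (u : W) :
    cheeger H ≤ (((H.neighborSet u).encard : ℕ∞) : ENNReal) := by
  classical
  refine (iInf₂_le ({u} : Finset W) (Finset.singleton_nonempty u)).trans ?_
  rw [Finset.card_singleton, Nat.cast_one, div_one]
  refine ENat.toENNReal_le.2 ?_
  have hsub : edgeBoundary H (({u} : Finset W) : Set W) ⊆ (fun v => s(u, v)) '' H.neighborSet u := by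
    rintro e ⟨a, b, ha, -, hab, rfl⟩
    have : a = u := by simpa using ha
    subst this
    exact ⟨b, hab, rfl⟩
  exact (Set.encard_le_encard hsub).trans (Set.encard_image_le _ _)

lemma sphere_finset (hT : T.IsTree) (hreg : ∀ v, (T.neighborSet v).encard = d)
    (n : ℕ) : ∃ F : Finset V, F.card ≤ d * (d - 1) ^ n ∧ ∀ y, y ∈ F ↔ T.dist o y = n + 1 := by
  classical
  have hc := hT.connected
  have hfin : ∀ v, (T.neighborSet v).Finite := fun v => Set.finite_of_encard_eq_coe (hreg v)
  have hcard : ∀ v, (hfin v).toFinset.card = d := by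
    intro v
    have := (hfin v).encard_eq_coe_toFinset_card
    rw [hreg v] at this
    exact_mod_cast this.symm
  induction n with
  | zero =>
    refine ⟨(hfin o).toFinset, by rw [hcard]; simp, fun y => ?_⟩
    rw [Set.Finite.mem_toFinset, SimpleGraph.mem_neighborSet, ← SimpleGraph.dist_eq_one_iff_adj]
  | succ n ih =>
    obtain ⟨F, hF, hFy⟩ := ih
    refine ⟨F.biUnion (fun x => (hfin x).toFinset.erase (par T o x)), ?_, fun y => ?_⟩
    · refine (Finset.card_biUnion_le_card_mul _ _ (d - 1) (fun x hx => ?_)).trans ?_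
      · have hxo : x ≠ o := by
          rintro rfl
          have := (hFy x).1 hx
          simp at this
        rw [Finset.card_erase_of_mem, hcard]
        rw [Set.Finite.mem_toFinset]
        exact (par_spec hc hxo).1
      · calc F.card * (d - 1) ≤ d * (d - 1) ^ n * (d - 1) := Nat.mul_le_mul_right _ hF
          _ = d * (d - 1) ^ (n + 1) := by ring
    · rw [Finset.mem_biUnion]
      constructor
      · rintro ⟨x, hx, hy⟩
        rw [Finset.mem_erase, Set.Finite.mem_toFinset] at hy
        have hxd := (hFy x).1 hx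
        rcases adj_cases (o := o) hT hy.2 with h1 | h1
        · omega
        · exact absurd h1.1 hy.1
      · intro hy
        have hyo : y ≠ o := by
          rintro rfl
          simp at hy
        obtain ⟨h1, h2⟩ := par_spec hc hyo
        refine ⟨par T o y, (hFy _).2 (by omega), ?_⟩
        rw [Finset.mem_erase, Set.Finite.mem_toFinset]
        refine ⟨?_, h1.symm⟩
        intro he
        have h3 := dist_par hc (o := o) (par T o y)
        rw [← he] at h3
        omega

lemma sphere_le (hT : T.IsTree) (hreg : ∀ v, (T.neighborSet v).encard = d)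
    (n : ℕ) : {y | T.dist o y = n + 1}.encard ≤ (d * (d - 1) ^ n : ℕ) := by
  obtain ⟨F, hF, hFy⟩ := sphere_finset (o := o) hT hreg n
  have : {y | T.dist o y = n + 1} = (F : Set V) := by
    ext y
    rw [Set.mem_ofPred_eq, Finset.mem_coe, hFy]
  rw [this, Set.encard_coe_eq_coe_finsetCard]
  exact_mod_cast hF

end con

end Pool.Agent.H76.NET
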