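import Pool.Agent.H76.NET.B

namespace Pool.Agent.H76.NET

section lower

variable {V : Type*} {T : SimpleGraph V} {o : V} {d k : ℕ} {S : Set V}

lemma desc_of_iter (hc : T.Connected) {z u : V} {m : ℕ} (h : (par T o)^[m] u = z) :
    Desc T o z u := by
  have h1 := dist_iter (o := o) hc u m
  rw [h] at h1
  by_cases hm : m ≤ T.dist o u
  · exact ⟨m, h, by omega⟩
  · have h0 : T.dist o z = 0 := by omega
    have hz : o = z := hc.dist_eq_zero_iff.1 h0
    refine ⟨T.dist o u, ?_, by omega⟩
    have h2 := dist_iter (o := o) hc u (T.dist o u)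
    rw [Nat.sub_self] at h2
    rw [← hz]
    exact (hc.dist_eq_zero_iff.1 h2).symm

lemma desc_dist_eq (hc : T.Connected) {z v : V} (h : Desc T o z v) :
    T.dist o v = T.dist o z + T.dist z v := by
  obtain ⟨n, h1, h2⟩ := h
  have h3 : T.dist z v ≤ n := by rw [← h1]; exact dist_iter_self hc v n
  have h4 := hc.dist_triangle (u := o) (v := z) (w := v)
  omega

lemma F1 (hT : T.IsTree) {z u v : V} (h1 : ¬ Desc T o z u) (h2 : Desc T o z v) :
    T.dist u v = T.dist u z + T.dist z v := by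
  have hc := hT.connected
  have h3 := desc_dist_eq hc h2
  obtain ⟨n, hn, hn2⟩ := h2
  obtain ⟨i, j, hij, he⟩ := meet (o := o) hT u v
  have htri := hc.dist_triangle (u := u) (v := z) (w := v)
  by_cases hj : n ≤ j
  · obtain ⟨m, rfl⟩ := Nat.exists_eq_add_of_le hj
    have h5 : (par T o)^[i] u = (par T o)^[m] z := by
      rw [he, add_comm, Function.iterate_add_apply, hn]
    have h6 := dist_iter_self (o := o) hc u i
    have h7 := dist_iter_self (o := o) hc z m
    rw [h5] at h6
    have h8 := hc.dist_triangle (u := u) (v := (par T o)^[m] z) (w := z)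
    rw [SimpleGraph.dist_comm (u := u) (v := (par T o)^[m] z)] at h8
    omega
  · exfalso
    apply h1
    obtain ⟨m, rfl⟩ := Nat.exists_eq_add_of_le (not_le.1 hj).le
    apply desc_of_iter hc (m := m + i)
    rw [Function.iterate_add_apply, he, ← Function.iterate_add_apply, add_comm m j]
    exact hn

lemma F2 (hT : T.IsTree) {z u : V} (h1 : ¬ Desc T o z u) :
    T.dist u z = T.dist u (par T o z) + 1 := by
  have hc := hT.connected
  obtain ⟨i, j, hij, he⟩ := meet (o := o) hT u z
  rcases j with _ | j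
  · exact absurd (desc_of_iter hc (m := i) he) h1
  · rw [Function.iterate_succ_apply] at he
    have h6 := dist_iter_self (o := o) hc u i
    have h7 := dist_iter_self (o := o) hc (par T o z) j
    rw [he] at h6
    have h8 := hc.dist_triangle (u := u) (v := (par T o)^[j] (par T o z)) (w := par T o z)
    rw [SimpleGraph.dist_comm (u := u) (v := (par T o)^[j] (par T o z))] at h8
    have h9 := dist_par_self (T := T) (o := o) hc z
    have h10 := hc.dist_triangle (u := u) (v := par T o z) (w := z)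
    omega

/-- Few occupied directions away from the root. -/
lemma down_card (hT : T.IsTree) (hS : IsNet T k S) (A : Finset V)
    (hA : (A : Set V) ⊆ S) {R : ℕ} (hR2 : 2 * R ≤ k + 1) (P : Finset (V × V))
    (hP : ∀ p ∈ P, p.1 ∈ A ∧ T.dist p.1 p.2 = R ∧ ¬ Desc T o p.2 p.1 ∧ ∃ v ∈ A, Desc T o p.2 v) :
    P.card ≤ A.card := by
  classical
  have hc := hT.connected
  have key : ∀ p ∈ P, ∃ a ∈ A, Desc T o p.2 a ∧
      ∀ b ∈ A, Desc T o p.2 b → T.dist o a ≤ T.dist o b := by
    intro p hp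
    obtain ⟨-, -, -, a, ha, hd⟩ := hP p hp
    have hne : (A.filter (fun a => Desc T o p.2 a)).Nonempty := ⟨a, by simp [ha, hd]⟩
    obtain ⟨b, hb, hmin⟩ := Finset.exists_min_image _ (fun a => T.dist o a) hne
    rw [Finset.mem_filter] at hb
    exact ⟨b, hb.1, hb.2, fun c hc hc' => hmin c (by simp [hc, hc'])⟩
  have hne : Nonempty V := hc.nonempty
  choose! f hf1 hf2 hf3 using key
  refine Finset.card_le_card_of_injOn f hf1 ?_
  have hsep : ∀ x ∈ A, ∀ y ∈ A, T.dist x y < k → x = y := by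
    intro x hx y hy h
    by_contra hne
    have := hS.1 x (hA hx) y (hA hy) hne
    omega
  have aux : ∀ p ∈ P, ∀ p' ∈ P, f p = f p' → T.dist o p.2 ≤ T.dist o p'.2 → p = p' := by
    rintro ⟨u, z⟩ hp ⟨u', z'⟩ hp' he hle
    obtain ⟨huA, huz, hnd, -⟩ := hP _ hp
    obtain ⟨huA', huz', hnd', -⟩ := hP _ hp'
    have hv := hf2 _ hp
    have hv' := hf2 _ hp'
    have hvA := hf1 _ hp
    have hmin := hf3 _ hp
    rw [← he] at hv'
    set v := f (u, z) with hvdef
    simp only at *
    have hvd' := desc_dist_eq hc hv'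
    obtain ⟨n, e, hn⟩ := id hv
    obtain ⟨n', e', hn'⟩ := id hv'
    obtain ⟨m, rfl⟩ : ∃ m, n = m + n' := ⟨n - n', by omega⟩
    rw [Function.iterate_add_apply, e'] at e
    have q1 := F2 hT hnd
    have q1' := F2 hT hnd'
    rcases Nat.eq_zero_or_pos m with rfl | hm
    · have hz : z' = z := e
      subst hz
      have h1 := hc.dist_triangle (u := u) (v := par T o z') (w := u')
      rw [SimpleGraph.dist_comm (u := par T o z') (v := u')] at h1
      have : u = u' := hsep u huA u' huA' (by omega)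
      rw [this]
    · exfalso
      have hzz : Desc T o z z' := desc_of_iter hc e
      have hzd := desc_dist_eq hc hzz
      have hm2 : T.dist z z' = m := by omega
      by_cases hu' : Desc T o z u'
      · have h1 := hmin u' huA' hu'
        have hne : u' ≠ v := by
          rintro h
          exact hnd' (h ▸ hv')
        have h2 := F1 hT hnd' hv'
        have h3 := hS.1 _ (hA huA') _ (hA hvA) hne
        have h4 := dist_par hc (o := o) z'
        have h5 := hc.dist_triangle (u := o) (v := par T o z') (w := u')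
        rw [SimpleGraph.dist_comm (u := par T o z') (v := u')] at h5
        omega
      · have h1 := F1 hT hu' hzz
        have h2 := F2 hT hu'
        have h3 := hc.dist_triangle (u := u) (v := par T o z) (w := u')
        rw [SimpleGraph.dist_comm (u := par T o z) (v := u')] at h3
        have : u = u' := hsep u huA u' huA' (by omega)
        subst this
        omega
  intro p hp p' hp' he
  rcases le_total (T.dist o p.2) (T.dist o p'.2) with h | h
  · exact aux p hp p' hp' he h
  · exact (aux p' hp' p hp he.symm h).symm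

/-- At most one direction per point towards the root. -/
lemma up_card (hT : T.IsTree) (A : Finset V) {R : ℕ} (P : Finset (V × V))
    (hP : ∀ p ∈ P, p.1 ∈ A ∧ T.dist p.1 p.2 = R ∧ Desc T o p.2 p.1) :
    P.card ≤ A.card := by
  classical
  have hc := hT.connected
  refine Finset.card_le_card_of_injOn Prod.fst (fun p hp => (hP p hp).1) ?_
  rintro ⟨u, z⟩ hp ⟨u', z'⟩ hp' he
  have hu : u = u' := he
  subst hu
  obtain ⟨-, h1, h2⟩ := hP _ hp
  obtain ⟨-, h1', h2'⟩ := hP _ hp'
  have h3 := desc_dist_eq hc h2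
  have h3' := desc_dist_eq hc h2'
  obtain ⟨n, e, hn⟩ := h2
  obtain ⟨n', e', hn'⟩ := h2'
  simp only at *
  rw [SimpleGraph.dist_comm] at h1 h1'
  have : n = n' := by omega
  rw [← e, ← e', this]

/-- Few occupied directions. -/
lemma occ_card (hT : T.IsTree) (hS : IsNet T k S) (A : Finset V)
    (hA : (A : Set V) ⊆ S) {R : ℕ} (hR2 : 2 * R ≤ k + 1) (P : Finset (V × V))
    (hP : ∀ p ∈ P, p.1 ∈ A ∧ T.dist p.1 p.2 = R ∧ ∃ v ∈ A, Desc T p.1 p.2 v) :
    P.card ≤ 2 * A.card := by
  classical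
  have hc := hT.connected
  obtain ⟨o⟩ := hc.nonempty
  have hsum : (P.filter (fun p => Desc T o p.2 p.1)).card +
    (P.filter (fun p => ¬ Desc T o p.2 p.1)).card = P.card :=
    Finset.card_filter_add_card_filter_not _
  have h1 : (P.filter (fun p => Desc T o p.2 p.1)).card ≤ A.card := by
    refine up_card (o := o) (R := R) hT A _ ?_
    intro p hp
    rw [Finset.mem_filter] at hp
    exact ⟨(hP p hp.1).1, (hP p hp.1).2.1, hp.2⟩
  have h2 : (P.filter (fun p => ¬ Desc T o p.2 p.1)).card ≤ A.card := by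
    refine down_card (o := o) hT hS A hA hR2 _ ?_
    intro p hp
    rw [Finset.mem_filter] at hp
    obtain ⟨h3, h4, v, hv, h5⟩ := hP p hp.1
    refine ⟨h3, h4, hp.2, v, hv, ?_⟩
    by_contra hcon
    have h6 := desc_dist_eq hc h5
    have h7 := F2 hT hp.2
    have h8 := F2 hT hcon
    have h9 := hc.dist_triangle (u := p.1) (v := par T o p.2) (w := v)
    rw [SimpleGraph.dist_comm (u := par T o p.2) (v := v)] at h9
    rw [SimpleGraph.dist_comm (u := p.2) (v := v)] at h6
    omega
  omega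

lemma gen_kid (hT : T.IsTree) (hreg : ∀ v, (d : ℕ∞) ≤ (T.neighborSet v).encard) (A : Finset V)
    (j : ℕ) {y : V} (hy : y ∈ gen hT hreg o A (j + 1)) :
    y ∈ kidset hT hreg o (par T o y) := by
  classical
  rw [gen, Finset.mem_biUnion] at hy
  obtain ⟨v, -, hy⟩ := hy
  rwa [(kids_par hT (kidset_sub hT hreg hy)).1]

lemma kids_card_le (hT : T.IsTree) (hreg : ∀ v, (d : ℕ∞) ≤ (T.neighborSet v).encard) (v : V) :
    (kidset hT hreg o v).card ≤ d - 1 :=
  (exists_kidset (o := o) hT hreg v).choose_spec.2.le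

lemma exists_nb (hreg : ∀ v, (d : ℕ∞) ≤ (T.neighborSet v).encard) (v : V) :
    ∃ K : Finset V, (K : Set V) ⊆ T.neighborSet v ∧ K.card = d := by
  obtain ⟨K, hK1, hK2⟩ := Set.exists_subset_encard_eq (hreg v)
  have hfin : K.Finite := Set.finite_of_encard_eq_coe hK2
  refine ⟨hfin.toFinset, by simpa using hK1, ?_⟩
  have h4 := hfin.encard_eq_coe_toFinset_card
  rw [hK2] at h4
  exact_mod_cast h4.symm

/-- `d` neighbours of `v`. -/
noncomputable def nb (hreg : ∀ v, (d : ℕ∞) ≤ (T.neighborSet v).encard) (v : V) : Finset V :=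
  (exists_nb hreg v).choose

/-- In every branch at distance `⌈k/2⌉ + 1` from a net point there is a net point at distance at
most `2k` from it. -/
lemma branch_all (hT : T.IsTree) (hd : 2 ≤ d)
    (hreg : ∀ v, (d : ℕ∞) ≤ (T.neighborSet v).encard) (hk : 1 ≤ k) (hS : IsNet T k S) {u y : V}
    (hu : u ∈ S) (hy : T.dist u y = (k + 1) / 2 + 1) :
    ∃ s ∈ S, Desc T u y s ∧ T.dist u s ≤ 2 * k := by
  have hc := hT.connected
  rcases Nat.lt_or_ge 1 k with h | h
  · have h1 : (par T u)^[(k + 1) / 2 + 1] y = u := by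
      have h2 := dist_iter (o := u) hc y ((k + 1) / 2 + 1)
      rw [hy, Nat.sub_self] at h2
      exact (hc.dist_eq_zero_iff.1 h2).symm
    exact branch (o := u) (r := (k + 1) / 2) hT hd hreg hk hS (by omega) (by omega) hu h1
      (by rw [hy]; simp)
  · obtain rfl : k = 1 := by omega
    obtain ⟨s, hs, h1⟩ := net_cover hk hS y
    have h2 : y = s := hc.dist_eq_zero_iff.1 (by omega)
    subst h2
    exact ⟨y, hs, ⟨0, rfl, rfl⟩, by omega⟩

lemma main_lower (hT : T.IsTree) (hd : 3 ≤ d)
    (hreg : ∀ v, (d : ℕ∞) ≤ (T.neighborSet v).encard)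
    (hk : 1 ≤ k) (hS : IsNet T k S) (A : Finset S) :
    ((d * (d - 1) ^ ((k + 1) / 2) - 2 * (d - 1)) * A.card : ℕ) ≤
      (edgeBoundary (netGraph T k S) (A : Set S)).encard := by
  classical
  rcases A.eq_empty_or_nonempty with rfl | ⟨x₀, -⟩
  · simp
  have hc := hT.connected
  have : Nonempty (S × S) := ⟨(x₀, x₀)⟩
  obtain ⟨R, hR⟩ : ∃ R, R = (k + 1) / 2 := ⟨_, rfl⟩
  rw [← hR]
  have hR1 : 1 ≤ R := by omega
  have hR2 : 2 * R ≤ k + 1 := by omega
  set A' : Finset V := A.map ⟨Subtype.val, Subtype.val_injective⟩ with hA'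
  have hA'S : (A' : Set V) ⊆ S := by
    intro x hx
    simp only [hA', Finset.coe_map, Function.Embedding.coeFn_mk, Set.mem_image] at hx
    obtain ⟨y, -, rfl⟩ := hx
    exact y.2
  have hcardA : A'.card = A.card := Finset.card_map _
  set Y : V → Finset V := fun u => gen hT hreg u (nb hreg u) R with hY
  have hYc : ∀ u, d * (d - 1) ^ R ≤ (Y u).card := by
    intro u
    have h1 := gen_card (o := u) hT hreg (nb hreg u) R
    rwa [nb, (exists_nb hreg u).choose_spec.2] at h1
  have hYd : ∀ u, ∀ y ∈ Y u, T.dist u y = R + 1 := by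
    intro u y hy
    obtain ⟨h1, h2⟩ := gen_spec (o := u) hT hreg (nb hreg u) R y hy
    have h3 : T.Adj u ((par T u)^[R] y) := (exists_nb hreg u).choose_spec.1 h1
    rw [SimpleGraph.dist_eq_one_iff_adj.2 h3] at h2
    omega
  set Q : Finset (Σ _ : V, V) := A'.sigma Y with hQ
  have hQc : A.card * (d * (d - 1) ^ R) ≤ Q.card := by
    rw [hQ, Finset.card_sigma, ← hcardA, ← smul_eq_mul, ← Finset.sum_const]
    exact Finset.sum_le_sum (fun u _ => hYc u)
  set Qo := Q.filter (fun q => ∃ v ∈ A', Desc T q.1 q.2 v) with hQo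
  set Qf := Q.filter (fun q => ¬ ∃ v ∈ A', Desc T q.1 q.2 v) with hQf
  have hsum : Qo.card + Qf.card = Q.card := Finset.card_filter_add_card_filter_not _
  set g : (Σ _ : V, V) → V × V := fun q => (q.1, par T q.1 q.2) with hg
  have hocc : Qo.card ≤ (d - 1) * (2 * A.card) := by
    refine (Finset.card_le_mul_card_image (f := g) Qo (d - 1) ?_).trans
      (Nat.mul_le_mul_left _ ?_)
    · rintro ⟨u, z⟩ -
      refine le_trans ?_ (kids_card_le (o := u) hT hreg z)
      refine Finset.card_le_card_of_injOn (fun q => q.2) ?_ ?_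
      · rintro ⟨u', y⟩ hq
        rw [Finset.mem_coe, Finset.mem_filter, hQo, Finset.mem_filter, hQ, Finset.mem_sigma] at hq
        obtain ⟨⟨⟨-, hy⟩, -⟩, he⟩ := hq
        rw [hg, Prod.mk.injEq] at he
        obtain ⟨rfl, rfl⟩ := he
        obtain ⟨R', rfl⟩ : ∃ R', R = R' + 1 := ⟨R - 1, by omega⟩
        exact gen_kid hT hreg _ _ hy
      · rintro ⟨u', y⟩ hq ⟨u'', y'⟩ hq' he
        rw [Finset.mem_coe, Finset.mem_filter] at hq hq'
        have e1 := hq.2
        have e2 := hq'.2
        rw [hg, Prod.mk.injEq] at e1 e2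
        have he' : y = y' := he
        have he'' : u' = u'' := e1.1.trans e2.1.symm
        rw [he', he'']
    · rw [← hcardA]
      refine occ_card hT hS A' hA'S hR2 _ ?_
      intro p hp
      rw [Finset.mem_image] at hp
      obtain ⟨⟨u, y⟩, hq, rfl⟩ := hp
      rw [hQo, Finset.mem_filter, hQ, Finset.mem_sigma] at hq
      obtain ⟨⟨hu, hy⟩, v, hv, n, e, hn⟩ := hq
      have hyd := hYd u y hy
      have hyu : y ≠ u := by
        rintro rfl
        rw [SimpleGraph.dist_self] at hyd
        omega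
      have hpar := (par_spec (o := u) hc hyu).2
      refine ⟨hu, ?_, v, hv, ?_⟩
      · change T.dist u (par T u y) = R
        omega
      · refine desc_of_iter (o := u) hc (m := n + 1) ?_
        rw [Function.iterate_succ_apply', e]
  have hfree : (d * (d - 1) ^ R - 2 * (d - 1)) * A.card ≤ Qf.card := by
    have h1 : (d * (d - 1) ^ R - 2 * (d - 1)) * A.card =
        A.card * (d * (d - 1) ^ R) - (d - 1) * (2 * A.card) := by
      rw [Nat.sub_mul]
      congr 1
      · ring
      · ring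
    omega
  have key : ∀ q ∈ Qf, ∃ p : S × S, p.1 ∈ A ∧ (p.1 : V) = q.1 ∧
      T.dist q.1 q.2 = R + 1 ∧ Desc T q.1 q.2 p.2 ∧
      T.dist (p.1 : V) (p.2 : V) ≤ 2 * k ∧ p.2 ∉ A := by
    rintro ⟨u, y⟩ hq
    rw [hQf, Finset.mem_filter, hQ, Finset.mem_sigma] at hq
    obtain ⟨⟨hu, hy⟩, hno⟩ := hq
    simp only at hu hy hno
    have hyd := hYd u y hy
    obtain ⟨s, hs, hdesc, hdist⟩ := branch_all hT (by omega) hreg hk hS
      (hA'S hu) (by rw [hyd, hR])
    refine ⟨(⟨u, hA'S hu⟩, ⟨s, hs⟩), ?_, rfl, hyd, hdesc, hdist, ?_⟩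
    · rw [hA', Finset.mem_map] at hu
      obtain ⟨y', hy', hy2⟩ := hu
      have : y' = ⟨u, hA'S (by rw [hA', Finset.mem_coe, Finset.mem_map]; exact ⟨y', hy', hy2⟩)⟩ :=
        Subtype.ext hy2
      exact this ▸ hy'
    · intro hmem
      apply hno
      refine ⟨s, ?_, hdesc⟩
      rw [hA', Finset.mem_map]
      exact ⟨_, hmem, rfl⟩
  choose! f hf1 hf2 hf3 hf4 hf5 hf6 using key
  have hmaps : ∀ u ∈ (Qf : Set (Σ _ : V, V)), s((f u).1, (f u).2) ∈
      edgeBoundary (netGraph T k S) (A : Set S) := by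
    intro u hu
    refine ⟨(f u).1, (f u).2, hf1 u hu, hf6 u hu, ⟨?_, hf5 u hu⟩, rfl⟩
    intro h
    exact hf6 u hu (h ▸ hf1 u hu)
  have hinj : Set.InjOn (fun u => s((f u).1, (f u).2)) (Qf : Set (Σ _ : V, V)) := by
    intro q hq q' hq' he
    simp only at he
    rw [Sym2.eq_iff] at he
    rcases he with ⟨e1, e2⟩ | ⟨e1, e2⟩
    · have h1 : q.1 = q'.1 := by rw [← hf2 q hq, ← hf2 q' hq', e1]
      have h2 := hf4 q hq
      have h2' := hf4 q' hq'
      have h3 := hf3 q hq
      have h3' := hf3 q' hq'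
      rcases q with ⟨u, y⟩
      rcases q' with ⟨u', y'⟩
      simp only at h1 h2 h2' h3 h3'
      subst h1
      rw [← e2] at h2'
      obtain ⟨n, hn1, hn2⟩ := h2
      obtain ⟨n', hn1', hn2'⟩ := h2'
      have : n = n' := by omega
      rw [← hn1, ← hn1', this]
    · exact absurd (e1 ▸ hf1 q hq) (hf6 q' hq')
  have h1 := Set.encard_le_encard_of_injOn hmaps hinj
  rw [Set.encard_coe_eq_coe_finsetCard] at h1
  refine le_trans ?_ h1
  exact_mod_cast hfree

lemma cheeger_lower (hT : T.IsTree)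
    (hd : 3 ≤ d) (hreg : ∀ v, (d : ℕ∞) ≤ (T.neighborSet v).encard) (hk : 1 ≤ k)
    (hS : IsNet T k S) :
    ((d * (d - 1) ^ ((k + 1) / 2) - 2 * (d - 1) : ℕ) : ENNReal) ≤ cheeger (netGraph T k S) := by
  rw [cheeger]
  refine le_iInf₂ (fun A hA => ?_)
  rw [ENNReal.le_div_iff_mul_le]
  · have h1 := main_lower hT hd hreg hk hS A
    have h2 : (((d * (d - 1) ^ ((k + 1) / 2) - 2 * (d - 1)) * A.card : ℕ) : ENNReal) ≤
        (((edgeBoundary (netGraph T k S) (A : Set S)).encard : ℕ∞) : ENNReal) := by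
      have := ENat.toENNReal_le.2 h1
      simpa using this
    rw [Nat.cast_mul] at h2
    exact h2
  · left
    exact_mod_cast hA.card_pos.ne'
  · left
    exact ENNReal.natCast_ne_top _

/-! ### The case `k = 1` of the upper bound -/

lemma cheeger_le_of_out {W : Type*} (H : SimpleGraph W) (A : Finset W) (hA : A.Nonempty) (D : ℕ)
    (h : ∀ u ∈ A, ∃ F : Finset W, F.card ≤ D ∧ ∀ v, v ∉ A → H.Adj u v → v ∈ F) :
    cheeger H ≤ (D : ENNReal) := by
  classical
  choose! F hF1 hF2 using h
  refine (iInf₂_le A hA).trans ?_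
  have hsub : edgeBoundary H (A : Set W) ⊆
      ((A.biUnion (fun u => (F u).image (fun v => s(u, v))) : Finset (Sym2 W)) : Set (Sym2 W)) := by
    rintro e ⟨u, v, hu, hv, huv, rfl⟩
    rw [Finset.mem_coe, Finset.mem_biUnion]
    exact ⟨u, hu, Finset.mem_image.2 ⟨v, hF2 u hu v hv huv, rfl⟩⟩
  have h1 := Set.encard_le_encard hsub
  rw [Set.encard_coe_eq_coe_finsetCard] at h1
  have h2 : (A.biUnion (fun u => (F u).image (fun v => s(u, v)))).card ≤ A.card * D :=
    Finset.card_biUnion_le_card_mul _ _ _ (fun u hu => Finset.card_image_le.trans (hF1 u hu))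
  have h3 : ((edgeBoundary H (A : Set W)).encard : ENNReal) ≤ (D : ENNReal) * (A.card : ENNReal) := by
    have h4 : (edgeBoundary H (A : Set W)).encard ≤ ((D * A.card : ℕ) : ℕ∞) := by
      refine h1.trans ?_
      rw [mul_comm]
      exact_mod_cast h2
    have h5 := ENat.toENNReal_le.2 h4
    simpa using h5
  exact ENNReal.div_le_of_le_mul h3

lemma isNet_univ (hc : T.Connected) : IsNet T 1 (Set.univ : Set V) := by
  refine ⟨fun x _ y _ hne => ?_, fun _ _ _ => Set.subset_univ _⟩
  exact Nat.pos_of_ne_zero (fun h => hne (hc.dist_eq_zero_iff.1 h))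

lemma cheeger_one (hT : T.IsTree) (hd : 1 ≤ d) (hreg : ∀ v, (T.neighborSet v).encard = d) :
    cheeger (netGraph T 1 (Set.univ : Set V)) ≤ ((d * (d - 1) : ℕ) : ENNReal) := by
  classical
  have hc := hT.connected
  obtain ⟨o⟩ := hc.nonempty
  obtain ⟨N, hN⟩ := exists_nb (fun v => (hreg v).ge) o
  have hNall : ∀ y, T.dist o y = 1 → y ∈ N := by
    intro y hy
    have h1 : (N : Set V) = T.neighborSet o := by
      refine N.finite_toSet.eq_of_subset_of_encard_le hN.1 ?_
      rw [hreg o, Set.encard_coe_eq_coe_finsetCard, hN.2]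
    have h2 : y ∈ T.neighborSet o := SimpleGraph.dist_eq_one_iff_adj.1 hy
    rw [← h1] at h2
    exact h2
  have hNd : ∀ y ∈ N, T.dist o y = 1 := fun y hy =>
    SimpleGraph.dist_eq_one_iff_adj.2 (hN.1 hy)
  have hoN : o ∉ N := by
    intro h
    have := hNd o h
    simp at this
  set A0 : Finset V := insert o N with hA0
  have hA0c : A0.card = d + 1 := by rw [hA0, Finset.card_insert_of_notMem hoN, hN.2]
  have hA0d : ∀ y ∈ A0, T.dist o y ≤ 1 := by
    intro y hy
    rw [hA0, Finset.mem_insert] at hy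
    rcases hy with rfl | hy
    · simp
    · exact (hNd y hy).le
  set e : (Set.univ : Set V) ≃ V := Equiv.Set.univ V with he
  refine cheeger_le_of_out _ (A0.map e.symm.toEmbedding)
    ⟨e.symm o, by rw [Finset.mem_map_equiv]; simp [hA0]⟩ _ ?_
  intro u hu
  rw [Finset.mem_map_equiv] at hu
  have hu' : (u : V) ∈ A0 := hu
  obtain ⟨F1', hF1, hF1y⟩ := sphere_finset (o := (u : V)) hT hreg 0
  obtain ⟨F2', hF2, hF2y⟩ := sphere_finset (o := (u : V)) hT hreg 1
  refine ⟨((F1' ∪ F2') \ (A0.erase (u : V))).map e.symm.toEmbedding, ?_, ?_⟩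
  · rw [Finset.card_map, Finset.card_sdiff_of_subset]
    · have h1 := Finset.card_union_le F1' F2'
      rw [Finset.card_erase_of_mem hu', hA0c]
      rw [pow_zero, mul_one] at hF1
      rw [pow_one] at hF2
      omega
    · intro w hw
      rw [Finset.mem_erase] at hw
      have h1 := hA0d _ hu'
      have h2 := hA0d _ hw.2
      have h3 := hc.dist_triangle (u := (u : V)) (v := o) (w := w)
      rw [SimpleGraph.dist_comm (u := (u : V)) (v := o)] at h3
      have h4 : T.dist (u : V) w ≠ 0 := fun h => hw.1 (hc.dist_eq_zero_iff.1 h).symm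
      rw [Finset.mem_union, hF1y, hF2y]
      omega
  · intro v hv huv
    rw [Finset.mem_map_equiv] at hv ⊢
    have hv' : (v : V) ∉ A0 := hv
    change (v : V) ∈ _
    rw [Finset.mem_sdiff, Finset.mem_union, hF1y, hF2y, Finset.mem_erase]
    have h1 : T.dist (u : V) (v : V) ≤ 2 * 1 := huv.2
    have h2 : T.dist (u : V) (v : V) ≠ 0 := fun h =>
      huv.1 (Subtype.ext (hc.dist_eq_zero_iff.1 h))
    refine ⟨by omega, fun h => hv' h.2⟩

end lower

end Pool.Agent.H76.NET
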